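import Pool.Agent.N784.HC.FamN
import Pool.Agent.W164.RC.Euler

/-!
# Ray class fields of a number field containing `i`, and the elliptic curve `y² = x³ - x`:
definitions and the statements of the independent parts (helper784)
-/

set_option autoImplicit false

open NumberField IsDedekindDomain Complex

namespace Pool.Agent.N784.CZ

open Pool.Agent.Y773 (TPos LI)
open Pool.Agent.Y767 (Mq Cls cls)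
open Pool.Agent.Y773.IQ (ofM')
open Pool.Agent.N784.AD (pi1)
open Pool.Agent.N784.HC (Dn)
open Pool.Agent.H304R3.HK (tc)
open H385 (nrm)
open Pool.Agent.W164.RC (Ip eulerFactor)

/-- `K` is the (narrow) ray class field of `M` of modulus `𝔮`: `ι` embeds the ring of integers of `M`
into that of `K`, and `art` is the Artin map (used only on the ideals prime to `𝔮`). -/
structure IsRCF {M : Type} [Field M] [NumberField M] (𝔮 : Ideal (𝓞 M)) (K : Type) [Field K]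
    [NumberField K] (ι : 𝓞 M →+* 𝓞 K) (art : Ideal (𝓞 M) → (𝓞 K ≃+* 𝓞 K)) : Prop where
  mul : ∀ 𝔞 𝔟 : Ideal (𝓞 M), IsCoprime 𝔞 𝔮 → IsCoprime 𝔟 𝔮 → art (𝔞 * 𝔟) = art 𝔞 * art 𝔟
  invariants : ∀ x : 𝓞 K, (∀ 𝔞 : Ideal (𝓞 M), IsCoprime 𝔞 𝔮 → art 𝔞 x = x) ↔ x ∈ ι.range
  kernel : ∀ 𝔞 : Ideal (𝓞 M), IsCoprime 𝔞 𝔮 → (art 𝔞 = 1 ↔ ∃ a b : 𝓞 M, a - 1 ∈ 𝔮 ∧ b - 1 ∈ 𝔮 ∧
    TPos M a ∧ TPos M b ∧ Ideal.span {a} * 𝔞 = Ideal.span {b})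
  unramified : ∀ v : HeightOneSpectrum (𝓞 K), ¬ 𝔮.map ι ≤ v.asIdeal →
    ∀ 𝔞 : Ideal (𝓞 M), IsCoprime 𝔞 𝔮 → (∀ x, art 𝔞 x - x ∈ v.asIdeal) → art 𝔞 = 1
  frobenius : ∀ 𝔭 : Ideal (𝓞 M), 𝔭.IsPrime → IsCoprime 𝔭 𝔮 → ∀ v : HeightOneSpectrum (𝓞 K),
    𝔭.map ι ≤ v.asIdeal → ∀ x : 𝓞 K, art 𝔭 x - x ^ Ideal.absNorm 𝔭 ∈ v.asIdeal

open Classical in
/-- the infinity type of the Hecke character of `y² = x³ - x` over `M`, `i₀` being the image of `i` -/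
noncomputable def tyi {M : Type} [Field M] [NumberField M] (ι₀ : GaussianInt →+* 𝓞 M) :
    (M →+* ℂ) → ℕ :=
  fun φ => if φ ((ι₀ ⟨0, 1⟩ : 𝓞 M) : M) = Complex.I then 1 else 0

/-- G1 : splitting of the primes in the ray class field -/
def StSplit : Prop := ∀ (M : Type) [Field M] [NumberField M] (𝔮 : Ideal (𝓞 M)) (_ : 𝔮 ≠ ⊥)
  (htop : 𝔮 ≠ ⊤) (K : Type) [Field K] [NumberField K] (ι : 𝓞 M →+* 𝓞 K)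
  (art : Ideal (𝓞 M) → (𝓞 K ≃+* 𝓞 K)), IsRCF 𝔮 K ι art →
  ∀ (𝔭 : Ideal (𝓞 M)), 𝔭.IsPrime → 𝔭 ≠ ⊥ → ∀ hc : IsCoprime 𝔭 𝔮,
    (∀ v : HeightOneSpectrum (𝓞 K), 𝔭.map ι ≤ v.asIdeal →
      Ideal.absNorm v.asIdeal = Ideal.absNorm 𝔭 ^ orderOf (cls (pi1 htop) ⟨𝔭, hc⟩)) ∧
    Nat.card {v : HeightOneSpectrum (𝓞 K) // 𝔭.map ι ≤ v.asIdeal} *
      orderOf (cls (pi1 htop) ⟨𝔭, hc⟩) = Nat.card (Cls (pi1 htop))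

/-- G2 : the Hecke character of `y² = x³ - x` over `M` -/
def StChar : Prop := ∀ (M : Type) [Field M] [NumberField M] (ι₀ : GaussianInt →+* 𝓞 M)
  (𝔮 : Ideal (𝓞 M)) (_ : 𝔮 ≠ ⊥) (htop : 𝔮 ≠ ⊤), 𝔮 ≤ Ideal.span {ι₀ ⟨2, 2⟩} →
  ∃ F : Mq 𝔮 →* ℂˣ, F ∈ Dn (tyi ι₀) htop ∧
    ∀ (𝔭 : Ideal (𝓞 M)), 𝔭.IsPrime → 𝔭 ≠ ⊥ → ∀ hc : IsCoprime 𝔭 𝔮,
    ∀ (p : Nat.Primes) (z : GaussianInt), z ∈ Ip p → ι₀ z ∈ 𝔭 → ∃ g : ℕ, 0 < g ∧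
      Ideal.absNorm 𝔭 = nrm z ^ g ∧
      ((F ⟨𝔭, hc⟩ : ℂˣ) : ℂ) = (tc z / (‖tc z‖ : ℂ)) ^ g

/-- G3 : the product over all characters of a given type at one prime ideal -/
def StLocal : Prop := ∀ (M : Type) [Field M] [NumberField M] (n : (M →+* ℂ) → ℕ)
  (𝔮 : Ideal (𝓞 M)) (_ : 𝔮 ≠ ⊥) (htop : 𝔮 ≠ ⊤) (F₁ : Mq 𝔮 →* ℂˣ), F₁ ∈ Dn n htop →
  ∀ (x : Mq 𝔮) (Y : ℂ), ‖Y‖ < 1 →
    ∏ᶠ F ∈ Dn n htop, (1 - ((F x : ℂˣ) : ℂ) * Y) =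
      (1 - (((F₁ x : ℂˣ) : ℂ) * Y) ^ orderOf (cls (pi1 htop) x)) ^
        (Nat.card (Cls (pi1 htop)) / orderOf (cls (pi1 htop) x))

/-- G4 : the L-function of `y² = x³ - x` over the ray class field -/
def StGlue : Prop := ∀ (M : Type) [Field M] [NumberField M] (ι₀ : GaussianInt →+* 𝓞 M)
  (𝔮 : Ideal (𝓞 M)) (_ : 𝔮 ≠ ⊥) (htop : 𝔮 ≠ ⊤), 𝔮 ≤ Ideal.span {ι₀ ⟨2, 2⟩} →
  ∀ (K : Type) [Field K] [NumberField K] (ι : 𝓞 M →+* 𝓞 K)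
    (art : Ideal (𝓞 M) → (𝓞 K ≃+* 𝓞 K)), IsRCF 𝔮 K ι art → ∀ s : ℂ, 3 / 2 < s.re →
    HasProd (open Classical in fun v : HeightOneSpectrum (𝓞 K) =>
      if 𝔮.map ι ≤ v.asIdeal then 1 else eulerFactor s v)
      (∏ᶠ F ∈ Dn (tyi ι₀) htop, (LI (ofM' htop F) (s - 1 / 2) *
        (starRingEnd ℂ) (LI (ofM' htop F) ((starRingEnd ℂ) s - 1 / 2))))

/-- G5 : the degree of the ray class field -/
def StDeg : Prop := ∀ (M : Type) [Field M] [NumberField M] (𝔮 : Ideal (𝓞 M)) (_ : 𝔮 ≠ ⊥)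
  (htop : 𝔮 ≠ ⊤) (K : Type) [Field K] [NumberField K] (ι : 𝓞 M →+* 𝓞 K)
  (art : Ideal (𝓞 M) → (𝓞 K ≃+* 𝓞 K)), IsRCF 𝔮 K ι art →
    Module.finrank ℚ K = Module.finrank ℚ M * Nat.card (Cls (pi1 htop))

end Pool.Agent.N784.CZ
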